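import Pool.Agent.H500.ME.Stm
import Pool.Agent.H643.AS.Bridge
import Pool.Graph.R_seed8.W401.Cheb.Frob

set_option autoImplicit false
set_option linter.unusedSectionVars false
set_option linter.deprecated false

/-!
# Project ME (helper500), part B7 (by helper21): descent, the roots of unity
-/

namespace Pool.Agent.H21.ME.DSC2

open NumberField IsDedekindDomain Filter Topology
open Pool.Agent.Q5.BR Pool.Agent.Q92.AR Pool.Agent.Q92.PA
open Pool.Agent.W353.NF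
open Pool.Agent.W401.Cheb (GK IsFrob IsInert)
open Pool.Agent.H500.HC (QBar)
open Pool.Agent.H500.ME
open Pool.Agent.H643.AS.Bridge (exists_field isFrob_restrict)

/-! ## The absolute value -/

section padic
variable {ℓ : ℕ} [Fact ℓ.Prime]

theorem norm_le_one {x : PadicAlgCl ℓ} (hx : IsIntegral ℤ x) : ‖x‖ ≤ 1 := by
  have h1 : IsIntegral (Valued.v (R := PadicAlgCl ℓ)).integer x := hx.tower_top
  have h2 := Valuation.Integers.mem_of_integral
    (Valuation.integer.integers (Valued.v (R := PadicAlgCl ℓ))) h1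
  have h3 : Valued.v (R := PadicAlgCl ℓ) x ≤ 1 := h2
  rw [← PadicAlgCl.valuation_coe]
  exact_mod_cast h3

theorem norm_l : ‖(ℓ : PadicAlgCl ℓ)‖ < 1 := by
  rw [← PadicAlgCl.valuation_coe, PadicAlgCl.valuation_p]
  have h1 : (1 : ℝ) < ℓ := by exact_mod_cast (Fact.out : ℓ.Prime).one_lt
  push_cast
  rw [div_lt_one (by linarith)]
  exact h1

theorem norm_one_of {u : PadicAlgCl ℓ} (h : ‖u - 1‖ < 1) : ‖u‖ = 1 := by
  apply le_antisymm
  · have h1 := IsUltrametricDist.norm_add_le_max (u - 1) 1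
    rw [sub_add_cancel, norm_one] at h1
    exact h1.trans (max_le h.le le_rfl)
  · have h1 := IsUltrametricDist.norm_add_le_max u (1 - u)
    rw [add_sub_cancel, norm_one] at h1
    rw [norm_sub_rev] at h
    rcases le_max_iff.1 h1 with h2 | h2
    · exact h2
    · exact absurd h2 (not_le.2 h)

/-- the units close to `1` -/
def Uu (ℓ : ℕ) [Fact ℓ.Prime] (δ : ℝ) (h0 : 0 < δ) (h1 : δ ≤ 1) : Subgroup (PadicAlgCl ℓ)ˣ where
  carrier := {u | ‖(u : PadicAlgCl ℓ) - 1‖ < δ}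
  one_mem' := by
    show ‖((1 : (PadicAlgCl ℓ)ˣ) : PadicAlgCl ℓ) - 1‖ < δ
    rw [Units.val_one, sub_self, norm_zero]
    exact h0
  mul_mem' {u v} hu hv := by
    show ‖((u * v : (PadicAlgCl ℓ)ˣ) : PadicAlgCl ℓ) - 1‖ < δ
    have hu' : ‖(u : PadicAlgCl ℓ) - 1‖ < δ := hu
    have hv' : ‖(v : PadicAlgCl ℓ) - 1‖ < δ := hv
    have h2 : ((u * v : (PadicAlgCl ℓ)ˣ) : PadicAlgCl ℓ) - 1 =
        ((u : PadicAlgCl ℓ) - 1) * v + (v - 1) := by
      rw [Units.val_mul]; ring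
    rw [h2]
    refine (IsUltrametricDist.norm_add_le_max _ _).trans_lt (max_lt ?_ hv')
    rw [norm_mul, norm_one_of (hv'.trans_le h1), mul_one]
    exact hu'
  inv_mem' {u} hu := by
    show ‖((u⁻¹ : (PadicAlgCl ℓ)ˣ) : PadicAlgCl ℓ) - 1‖ < δ
    have hu' : ‖(u : PadicAlgCl ℓ) - 1‖ < δ := hu
    have h2 : ((u⁻¹ : (PadicAlgCl ℓ)ˣ) : PadicAlgCl ℓ) - 1 =
        (1 - (u : PadicAlgCl ℓ)) * (u : PadicAlgCl ℓ)⁻¹ := by
      rw [Units.val_inv_eq_inv_val, sub_mul, mul_inv_cancel₀ u.ne_zero, one_mul]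
    rw [h2, norm_mul, norm_inv, norm_one_of (hu'.trans_le h1), inv_one, mul_one, norm_sub_rev]
    exact hu'

theorem mem_Uu {δ : ℝ} {h0 : 0 < δ} {h1 : δ ≤ 1} {u : (PadicAlgCl ℓ)ˣ} :
    u ∈ Uu ℓ δ h0 h1 ↔ ‖(u : PadicAlgCl ℓ) - 1‖ < δ := Iff.rfl

theorem exists_delta_fin (S : Finset (PadicAlgCl ℓ)) :
    ∃ δ : ℝ, 0 < δ ∧ δ ≤ 1 ∧ ∀ z ∈ S, z ≠ 1 → δ ≤ ‖z - 1‖ := by
  classical
  induction S using Finset.induction_on with
  | empty => exact ⟨1, one_pos, le_rfl, fun z hz => absurd hz (Finset.notMem_empty z)⟩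
  | insert a S ha ih =>
    obtain ⟨δ, h0, h1, h2⟩ := ih
    by_cases h : a = 1
    · refine ⟨δ, h0, h1, fun z hz hz1 => ?_⟩
      rcases Finset.mem_insert.1 hz with h3 | h3
      · exact absurd (h3.trans h) hz1
      · exact h2 z h3 hz1
    · refine ⟨min δ ‖a - 1‖, lt_min h0 (norm_pos_iff.2 (sub_ne_zero.2 h)), (min_le_left _ _).trans h1,
        fun z hz hz1 => ?_⟩
      rcases Finset.mem_insert.1 hz with h3 | h3
      · rw [h3]; exact min_le_right _ _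
      · exact (min_le_left _ _).trans (h2 z h3 hz1)

theorem exists_delta (d : ℕ) (hd : 0 < d) : ∃ δ : ℝ, 0 < δ ∧ δ ≤ 1 ∧
    ∀ z : PadicAlgCl ℓ, z ^ d = 1 → ‖z - 1‖ < δ → z = 1 := by
  classical
  obtain ⟨δ, h0, h1, h2⟩ := exists_delta_fin (Polynomial.nthRoots d (1 : PadicAlgCl ℓ)).toFinset
  refine ⟨δ, h0, h1, fun z hz hz1 => ?_⟩
  by_contra h
  have h3 := h2 z (by rw [Multiset.mem_toFinset, Polynomial.mem_nthRoots hd]; exact hz) h
  linarith

end padic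

/-! ## Elements of the ray modulo a power of `ℓ` -/

section ray
variable {K : Type} [Field K] [NumberField K] {ℓ : ℕ} [Fact ℓ.Prime]

theorem norm_int (τ : K →+* PadicAlgCl ℓ) (c : 𝓞 K) : ‖τ c‖ ≤ 1 :=
  norm_le_one (map_isIntegral_int τ c.2)

/-- the prime of `τ` -/
def Pt (τ : K →+* PadicAlgCl ℓ) : Ideal (𝓞 K) where
  carrier := {c | ‖τ (c : K)‖ < 1}
  zero_mem' := by
    show ‖τ ((0 : 𝓞 K) : K)‖ < 1
    have h1 : τ ((0 : 𝓞 K) : K) = 0 := by
      have h2 : ((0 : 𝓞 K) : K) = 0 := rfl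
      rw [h2, map_zero]
    rw [h1, norm_zero]
    exact one_pos
  add_mem' {a b} ha hb := by
    show ‖τ ((a + b : 𝓞 K) : K)‖ < 1
    have h1 : τ ((a + b : 𝓞 K) : K) = τ (a : K) + τ (b : K) := by
      rw [← map_add]; rfl
    rw [h1]
    exact (IsUltrametricDist.norm_add_le_max _ _).trans_lt (max_lt ha hb)
  smul_mem' r a ha := by
    show ‖τ ((r * a : 𝓞 K) : K)‖ < 1
    have h1 : τ ((r * a : 𝓞 K) : K) = τ (r : K) * τ (a : K) := by
      rw [← map_mul]; rfl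
    rw [h1, norm_mul]
    have h2 : ‖τ (a : K)‖ < 1 := ha
    have h3 := norm_int τ r
    nlinarith [norm_nonneg (τ (a : K)), norm_nonneg (τ (r : K))]

theorem mem_Pt {τ : K →+* PadicAlgCl ℓ} {c : 𝓞 K} : c ∈ Pt τ ↔ ‖τ (c : K)‖ < 1 := Iff.rfl

theorem Pt_prime (τ : K →+* PadicAlgCl ℓ) : (Pt τ).IsPrime := by
  refine Ideal.isPrime_iff.2 ⟨?_, ?_⟩
  · rw [Ideal.ne_top_iff_one, mem_Pt]
    have h2 : ((1 : 𝓞 K) : K) = 1 := rfl
    rw [h2, map_one, norm_one]
    exact lt_irrefl _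
  · intro a b hab
    rw [mem_Pt] at hab ⊢
    rw [mem_Pt]
    have h1 : τ ((a * b : 𝓞 K) : K) = τ (a : K) * τ (b : K) := by
      rw [← map_mul]; rfl
    rw [h1, norm_mul] at hab
    by_contra hcon
    push Not at hcon
    have h2 := mul_le_mul hcon.1 hcon.2 zero_le_one (norm_nonneg _)
    linarith

theorem l_mem_Pt (τ : K →+* PadicAlgCl ℓ) : (ℓ : 𝓞 K) ∈ Pt τ := by
  rw [mem_Pt]
  have h1 : τ (((ℓ : 𝓞 K)) : K) = (ℓ : PadicAlgCl ℓ) := by
    have h2 : (((ℓ : 𝓞 K)) : K) = (ℓ : K) := by push_cast; rfl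
    rw [h2, map_natCast]
  rw [h1]
  exact norm_l

/-- the place of `τ` -/
def vt (τ : K →+* PadicAlgCl ℓ) : HeightOneSpectrum (𝓞 K) :=
  ⟨Pt τ, Pt_prime τ, fun h => by
    have h1 := l_mem_Pt τ
    rw [h, Ideal.mem_bot, Nat.cast_eq_zero] at h1
    exact (Fact.out : ℓ.Prime).ne_zero h1⟩

theorem ray_close {a : ℕ} (ha : a ≠ 0) {x : Kˣ} (hx : x ∈ Ray K (ℓ ^ a))
    (τ : K →+* PadicAlgCl ℓ) : ‖τ (x : K) - 1‖ ≤ ‖(ℓ : PadicAlgCl ℓ)‖ ^ a := by
  have hl0 : ((ℓ ^ a : ℕ) : K) ≠ 0 := by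
    exact_mod_cast pow_ne_zero a (Fact.out : ℓ.Prime).ne_zero
  have h1 := hx.1 (vt τ) (by
    rw [Nat.cast_pow]
    exact Ideal.pow_mem_of_mem _ (l_mem_Pt τ) a (Nat.pos_of_ne_zero ha))
  obtain ⟨y, hy⟩ : ∃ y : K, y = ((x : K) - 1) / ((ℓ ^ a : ℕ) : K) := ⟨_, rfl⟩
  have hy1 : (vt τ).valuation K y ≤ 1 := by
    rw [hy, map_div₀]
    exact div_le_one_of_le₀ h1 zero_le
  obtain ⟨n, ⟨d, hd⟩, hnd⟩ := (vt τ).exists_primeCompl_mul_eq_of_integer y hy1
  have hd1 : ‖τ (d : K)‖ = 1 := by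
    apply le_antisymm (norm_int τ d)
    by_contra h
    exact hd (mem_Pt.2 (not_le.1 h))
  have hn1 : ‖τ (n : K)‖ ≤ 1 := norm_int τ n
  have h2 : τ y * τ (d : K) = τ (n : K) := by
    rw [← map_mul]
    exact congrArg τ hnd
  have h3 : ‖τ y‖ ≤ 1 := by
    have h4 : ‖τ y‖ * ‖τ (d : K)‖ = ‖τ (n : K)‖ := by rw [← norm_mul, h2]
    rw [hd1, mul_one] at h4
    rw [h4]
    exact hn1
  have h5 : τ (x : K) - 1 = (ℓ : PadicAlgCl ℓ) ^ a * τ y := by
    have h6 : (x : K) = 1 + ((ℓ ^ a : ℕ) : K) * y := by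
      rw [hy, mul_div_cancel₀ _ hl0]; ring
    rw [h6, map_add, map_one, map_mul, map_natCast]
    push_cast
    ring
  rw [h5, norm_mul, norm_pow]
  exact mul_le_of_le_one_right (by positivity) h3

theorem ray_mul_left {M M' : ℕ} {x : Kˣ} (h : x ∈ Ray K (M * M')) : x ∈ Ray K M := by
  refine ⟨fun v hv => ?_, h.2⟩
  have h1 := h.1 v (by rw [Nat.cast_mul]; exact v.asIdeal.mul_mem_right _ hv)
  refine h1.trans ?_
  rw [Nat.cast_mul, map_mul]
  refine mul_le_of_le_one_right' ?_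
  have h2 := v.valuation_le_one (K := K) (M' : 𝓞 K)
  simpa using h2

theorem ray_dvd {M M' : ℕ} (hM : M ∣ M') {x : Kˣ} (h : x ∈ Ray K M') : x ∈ Ray K M := by
  obtain ⟨c, rfl⟩ := hM
  exact ray_mul_left h

theorem prin_mem {N : ℕ} {x : Kˣ} (hx : x ∈ Ray K N) (v : HeightOneSpectrum (𝓞 K))
    (hv : (N : 𝓞 K) ∈ v.asIdeal) : prin x v = 0 := Pool.Agent.Q125.AR.prin_mem_Pr hx v hv

end ray

/-! ## Characters of finite abelian groups -/

theorem sep {C : Type} [CommGroup C] [Finite C] {c : C} (h : ∀ ψ : C →* ℂˣ, ψ c = 1) : c = 1 := by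
  by_contra hc
  obtain ⟨ψ, hψ⟩ := CommGroup.exists_apply_ne_one_of_hasEnoughRootsOfUnity C ℂ hc
  exact hψ (h ψ)

theorem fin_dual (C : Type) [CommGroup C] [Finite C] : Finite (C →* ℂˣ) := by
  obtain ⟨e⟩ := CommGroup.monoidHom_mulEquiv_of_hasEnoughRootsOfUnity C ℂ
  exact Finite.of_equiv C e.symm.toEquiv

/-- reciprocity for a homomorphism of the Galois group to a finite abelian group -/
theorem recip_fin {K M : Type} [Field K] [NumberField K] [Field M] [NumberField M] [Algebra K M]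
    [IsGalois K M] {C : Type} [CommGroup C] [Finite C] (θ : (M ≃ₐ[K] M) →* C) :
    ∃ (N : ℕ) (γ : Dv K →+ Additive C), N ≠ 0 ∧ Ram K M N ∧
      (∀ v, γ (Finsupp.single v 1) = Additive.ofMul (θ (frob M v))) ∧
      ∀ x ∈ Ray K N, γ (prin x) = 0 := by
  classical
  have hfin := fin_dual C
  have : Fintype (C →* ℂˣ) := Fintype.ofFinite _
  have hrec : ∀ ψ : C →* ℂˣ, ∃ N : ℕ, N ≠ 0 ∧ Ram K M N ∧
      ∀ x ∈ Ray K N, art (ψ.comp θ) (prin x) = 0 := fun ψ => recip K M (ψ.comp θ)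
  choose Nf hN0 hNr hNx using hrec
  let γ : Dv K →+ Additive C :=
    Finsupp.liftAddHom fun v => (zmultiplesHom (Additive C)) (Additive.ofMul (θ (frob M v)))
  have hγ1 : ∀ v, γ (Finsupp.single v 1) = Additive.ofMul (θ (frob M v)) := by
    intro v
    show Finsupp.liftAddHom _ (Finsupp.single v 1) = _
    rw [Finsupp.liftAddHom_apply_single]
    exact one_zsmul _
  have hγ : ∀ ψ : C →* ℂˣ, art (ψ.comp θ) = (MonoidHom.toAdditive ψ).comp γ := by
    intro ψ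
    refine Finsupp.addHom_ext fun v k => ?_
    rw [art_single]
    have h1 : (Finsupp.single v k : Dv K) = k • Finsupp.single v 1 := by
      rw [Finsupp.smul_single, smul_eq_mul, mul_one]
    rw [h1, map_zsmul, AddMonoidHom.comp_apply, hγ1]
    rfl
  refine ⟨∏ ψ, Nf ψ, γ, Finset.prod_ne_zero_iff.2 fun ψ _ => hN0 ψ, ?_, hγ1, ?_⟩
  · intro v hv
    have h1 := hNr 1 v hv
    obtain ⟨c, hc⟩ := Finset.dvd_prod_of_mem Nf (Finset.mem_univ (1 : C →* ℂˣ))
    rw [hc, Nat.cast_mul]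
    exact v.asIdeal.mul_mem_right _ h1
  · intro x hx
    have h1 : (γ (prin x)).toMul = 1 := by
      apply sep
      intro ψ
      have h2 := hNx ψ x (ray_dvd (Finset.dvd_prod_of_mem Nf (Finset.mem_univ ψ)) hx)
      rw [hγ] at h2
      exact Additive.ofMul.injective h2
    exact Additive.toMul.injective h1

/-- a quotient of a commutative group -/
theorem exists_quot {A : Type} [CommGroup A] (U : Subgroup A) :
    ∃ (Q : Type) (_ : CommGroup Q) (m : A →* Q), ∀ u, m u = 1 ↔ u ∈ U :=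
  ⟨A ⧸ U, inferInstance, QuotientGroup.mk' U, fun u => QuotientGroup.eq_one_iff u⟩

theorem main : Pool.Agent.H500.ME.S_DSC2 := by
  intro K _ _ ℓ _ κ ξ M' d t' φ' hc hM hd h1 h2
  classical
  obtain ⟨δ, hδ0, hδ1, hδ⟩ := exists_delta (ℓ := ℓ) d hd
  obtain ⟨a, ha0, ha⟩ : ∃ a : ℕ, a ≠ 0 ∧ ‖(ℓ : PadicAlgCl ℓ)‖ ^ a < δ := by
    obtain ⟨a, ha⟩ := exists_pow_lt_of_lt_one hδ0 (norm_l (ℓ := ℓ))
    refine ⟨a + 1, Nat.succ_ne_zero a, lt_of_le_of_lt ?_ ha⟩
    exact pow_le_pow_of_le_one (norm_nonneg _) norm_l.le (Nat.le_succ a)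
  obtain ⟨U, hU⟩ : ∃ U : Subgroup (PadicAlgCl ℓ)ˣ, ∀ u, u ∈ U ↔ ‖(u : PadicAlgCl ℓ) - 1‖ < δ :=
    ⟨Uu ℓ δ hδ0 hδ1, fun u => mem_Uu⟩
  obtain ⟨Q, _, m, hm⟩ := exists_quot U
  let q : GK K →* Q := m.comp ξ
  have hqker : ∀ s, s ∈ q.ker ↔ ‖(ξ s : PadicAlgCl ℓ) - 1‖ < δ := by
    intro s
    rw [← hU, MonoidHom.mem_ker]
    exact hm (ξ s)
  have hopen : IsOpen (q.ker : Set (GK K)) := by
    have h3 : (q.ker : Set (GK K)) = {s | ‖(ξ s : PadicAlgCl ℓ) - 1‖ < δ} := by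
      ext s
      exact hqker s
    rw [h3]
    exact isOpen_lt (hc.sub continuous_const).norm continuous_const
  obtain ⟨M, hfd, hgal, hfix⟩ := exists_field q.ker hopen
  have hnf : NumberField M := NumberField.of_module_finite K M
  set res : GK K →* (M ≃ₐ[K] M) := AlgEquiv.restrictNormalHom M with hres
  have hsurj : Function.Surjective res := AlgEquiv.restrictNormalHom_surjective _
  have hker : res.ker = q.ker := by
    rw [hres, IntermediateField.restrictNormalHom_ker, hfix]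
  set C : Subgroup Q := q.range with hC
  obtain ⟨θC, hθC⟩ : ∃ θC : (M ≃ₐ[K] M) →* C, ∀ g, θC (res g) = q.rangeRestrict g :=
    ⟨MonoidHom.liftOfSurjective _ hsurj ⟨q.rangeRestrict, by
      rw [hker, MonoidHom.ker_rangeRestrict]⟩, fun g =>
      MonoidHom.liftOfRightInverse_comp_apply _ _ _ ⟨q.rangeRestrict, _⟩ g⟩
  have hθC' : ∀ g, ((θC (res g) : C) : Q) = q g := fun g => by
    rw [hθC]
    rfl
  have hfinC : Finite C := by
    have hs : Function.Surjective θC := by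
      rintro ⟨c, g, rfl⟩
      exact ⟨res g, Subtype.ext (hθC' g)⟩
    exact Finite.of_surjective θC hs
  obtain ⟨N, γ, hN0, hNr, hγ1, hγ⟩ := recip_fin θC
  have hunr : ∀ w : HeightOneSpectrum (𝓞 K), (N : 𝓞 K) ∉ w.asIdeal → Unramified M w := by
    intro w hw
    by_contra h
    exact hw (hNr w h)
  have hnot : ∀ (A B : ℕ) (w : HeightOneSpectrum (𝓞 K)), ((A * B : ℕ) : 𝓞 K) ∉ w.asIdeal →
      (A : 𝓞 K) ∉ w.asIdeal ∧ (B : 𝓞 K) ∉ w.asIdeal := by
    intro A B w hw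
    rw [Nat.cast_mul] at hw
    exact ⟨fun h => hw (w.asIdeal.mul_mem_right _ h), fun h => hw (w.asIdeal.mul_mem_left _ h)⟩
  -- two homomorphisms of the divisors
  let κu : QBarˣ →* (PadicAlgCl ℓ)ˣ := Units.map (κ : QBar →* PadicAlgCl ℓ)
  let H1 : Dv K →+ Additive Q :=
    (MonoidHom.toAdditive (m.comp κu)).comp φ'
  let H2 : Dv K →+ Additive Q := (MonoidHom.toAdditive C.subtype).comp γ
  have hsingle : ∀ v : HeightOneSpectrum (𝓞 K), ((M' * N : ℕ) : 𝓞 K) ∉ v.asIdeal →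
      H1 (Finsupp.single v 1) = H2 (Finsupp.single v 1) := by
    intro v hv
    obtain ⟨hv1, hv2⟩ := hnot M' N v hv
    obtain ⟨s, hs⟩ := (Pool.Agent.W401.Frob.main K).1 v
    have h3 : ξ s = κu (φ' (Finsupp.single v 1)).toMul := Units.ext ((h2 v hv1).2 s hs)
    have h4 : H1 (Finsupp.single v 1) = Additive.ofMul (q s) := by
      show Additive.ofMul (m (κu (φ' (Finsupp.single v 1)).toMul)) = Additive.ofMul (m (ξ s))
      rw [h3]
    have h5 : IsFrobenius v (res s) := isFrob_restrict hs M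
    obtain ⟨h, hh⟩ := isFrobenius_conj (hunr v hv2) h5 (frob_spec v)
    have h6 : θC (frob M v) = θC (res s) := by
      rw [hh, map_mul, map_mul, map_inv, mul_comm, mul_inv_cancel_left]
    have h7 : H2 (Finsupp.single v 1) = Additive.ofMul (q s) := by
      show (MonoidHom.toAdditive C.subtype) (γ (Finsupp.single v 1)) = _
      rw [hγ1, h6, ← hθC']
      rfl
    rw [h4, h7]
  have hagree : ∀ D : Dv K, (∀ v : HeightOneSpectrum (𝓞 K), ((M' * N : ℕ) : 𝓞 K) ∈ v.asIdeal →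
      D v = 0) → H1 D = H2 D := by
    intro D hD
    have h3 : ∀ H : Dv K →+ Additive Q,
        H D = D.sum fun v k => k • H (Finsupp.single v 1) := by
      intro H
      conv_lhs => rw [← Finsupp.sum_single D, map_finsuppSum]
      refine Finsupp.sum_congr fun v _ => ?_
      have h4 : (Finsupp.single v (D v) : Dv K) = D v • Finsupp.single v 1 := by
        rw [Finsupp.smul_single, smul_eq_mul, mul_one]
      rw [h4, map_zsmul]
    rw [h3 H1, h3 H2]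
    refine Finsupp.sum_congr fun v hv => ?_
    rw [hsingle v fun h => (Finsupp.mem_support_iff.1 hv) (hD v h)]
  have hkey : ∀ x ∈ Ray K (M' * N), κu (φ' (prin x)).toMul ∈ U := by
    intro x hx
    have h3 := hagree (prin x) (prin_mem hx)
    have h4 : H2 (prin x) = 0 := by
      show (MonoidHom.toAdditive C.subtype) (γ (prin x)) = 0
      rw [hγ x (ray_dvd (Dvd.intro_left M' rfl) hx), map_zero]
    rw [h4] at h3
    exact (hm _).1 h3
  have htyp : ∀ x ∈ Ray K (ℓ ^ a), κu (typU t' x) ∈ U := by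
    intro x hx
    unfold typU
    rw [map_prod]
    refine Subgroup.prod_mem _ fun σ _ => ?_
    rw [map_zpow]
    refine Subgroup.zpow_mem _ ?_ _
    rw [hU]
    exact (ray_close ha0 hx (κ.comp σ)).trans_lt ha
  refine ⟨M' * N * ℓ ^ a, ⟨?_, hc, ?_, ?_, ?_⟩⟩
  · exact Nat.mul_pos (Nat.mul_pos hM (Nat.pos_of_ne_zero hN0))
      (pow_pos (Fact.out : ℓ.Prime).pos a)
  · intro x hx
    have hx1 : x ∈ Ray K (M' * N) := ray_mul_left hx
    have hx2 : x ∈ Ray K (ℓ ^ a) := ray_dvd (Dvd.intro_left _ rfl) hx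
    have hx3 : x ∈ Ray K M' := ray_mul_left hx1
    have h3 : (φ' (prin x)).toMul ^ d = typU t' x ^ d := Additive.ofMul.injective (h1 x hx3)
    obtain ⟨ω, hω⟩ : ∃ ω : QBarˣ, ω = (φ' (prin x)).toMul / typU t' x := ⟨_, rfl⟩
    have h4 : ω ^ d = 1 := by
      rw [hω, div_pow, h3, div_self']
    have h5 : κu ω ∈ U := by
      rw [hω, map_div]
      exact U.div_mem (hkey x hx1) (htyp x hx2)
    rw [hU] at h5
    have h6 : ((κu ω : (PadicAlgCl ℓ)ˣ) : PadicAlgCl ℓ) ^ d = 1 := by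
      rw [← Units.val_pow_eq_pow_val, ← map_pow, h4, map_one, Units.val_one]
    have h7 := hδ _ h6 h5
    have h8 : ω = 1 := by
      apply Units.ext
      apply κ.injective
      rw [Units.val_one, map_one]
      exact h7
    rw [h8] at hω
    have h9 : (φ' (prin x)).toMul = typU t' x := div_eq_one.1 hω.symm
    rw [← h9]
    rfl
  · intro w hw
    exact (h2 w (hnot _ _ w (hnot _ _ w hw).1).1).1
  · intro w hw
    exact (h2 w (hnot _ _ w (hnot _ _ w hw).1).1).2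

end Pool.Agent.H21.ME.DSC2
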